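import Pool.Agent.Helper77.RL.Goals2
import Pool.Agent.Helper99.RL.TOR

/-!
# Packet RL-TYP (MP_fc6b1e_nt): the hypotheses of the lifting theorem at the places above p
-/

namespace Pool.Agent.Helper4.RL

open NumberField Polynomial Module IsDedekindDomain Pool.Agent.Helper51.SigLeo
open Pool.Agent.Helper51.RP Pool.Agent.Helper77.RL

section coprime

variable {p : ℕ} [Fact p.Prime] {k : Type} [NormedField k] [NormedAlgebra ℚ_[p] k]
  [IsUltrametricDist k]

/-- The embedding of the `p`-adic integers. -/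
noncomputable abbrev emb (p : ℕ) [Fact p.Prime] (k : Type) [NormedField k]
    [NormedAlgebra ℚ_[p] k] : ℤ_[p] →+* k :=
  (algebraMap ℚ_[p] k).comp (algebraMap ℤ_[p] ℚ_[p])

theorem norm_emb (c : ℤ_[p]) : ‖emb p k c‖ = ‖c‖ := by
  change ‖algebraMap ℚ_[p] k (c : ℚ_[p])‖ = ‖c‖
  rw [norm_algebraMap']
  rfl

theorem norm_eval_lt (ζ : k) (hζ : ‖ζ‖ = 1) (F : ℤ_[p][X])
    (hF : F.map PadicInt.toZMod = 0) : ‖eval₂ (emb p k) ζ F‖ < 1 := by
  have hc : ∀ j, ‖F.coeff j‖ < 1 := by
    intro j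
    have h1 : PadicInt.toZMod (F.coeff j) = 0 := by
      rw [← coeff_map, hF, coeff_zero]
    have h2 : F.coeff j ∈ RingHom.ker (PadicInt.toZMod : ℤ_[p] →+* ZMod p) := h1
    rw [PadicInt.ker_toZMod, IsLocalRing.mem_maximalIdeal] at h2
    exact PadicInt.mem_nonunits.1 h2
  rw [eval₂_eq_sum_range]
  have key : ∀ s : Finset ℕ, ‖∑ j ∈ s, emb p k (F.coeff j) * ζ ^ j‖ < 1 := by
    intro s
    induction s using Finset.induction_on with
    | empty => simp
    | insert a s ha ih =>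
      rw [Finset.sum_insert ha]
      refine (IsUltrametricDist.norm_add_le_max _ _).trans_lt (max_lt ?_ ih)
      rw [norm_mul, norm_pow, hζ, one_pow, mul_one, norm_emb]
      exact hc a
  exact key _

theorem coprime_of_norm {m : ℕ} {ζ : k} {Φ : ℤ_[p][X]} {P : (ZMod p)[X]}
    (hΦ : PhiData p m ζ Φ P) (r i : ℕ) (h : ‖ζ ^ r - i‖ = 1) :
    IsCoprime P (X ^ r - C (i : ZMod p)) := by
  have hζ : ‖ζ‖ = 1 := by
    have h1 : ‖ζ‖ ^ m = 1 := by
      rw [← norm_pow, hΦ.prim.pow_eq_one, norm_one]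
    have hm : m ≠ 0 := by
      have := hΦ.one_lt
      omega
    exact (pow_eq_one_iff_of_nonneg (norm_nonneg _) hm).1 h1
  rw [hΦ.irr.coprime_iff_not_dvd]
  rintro ⟨A, hA⟩
  obtain ⟨A', hA'⟩ := map_surjective (PadicInt.toZMod : ℤ_[p] →+* ZMod p)
    (ZMod.ringHom_surjective _) A
  have h1 : (X ^ r - C (i : ℤ_[p]) - Φ * A').map (PadicInt.toZMod : ℤ_[p] →+* ZMod p) = 0 := by
    rw [Polynomial.map_sub, Polynomial.map_sub, Polynomial.map_pow, map_X, map_C,
      Polynomial.map_mul, hA', ← hΦ.map, map_natCast, hA, sub_self]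
  have h2 := norm_eval_lt ζ hζ _ h1
  have h3 : eval₂ (emb p k) ζ Φ = 0 := hΦ.root
  rw [eval₂_sub, eval₂_sub, eval₂_mul, h3, zero_mul, sub_zero, eval₂_pow, eval₂_X, eval₂_C,
    map_natCast, h] at h2
  exact lt_irrefl _ h2

end coprime

/-- The powers of an automorphism which preserves the norms. -/
theorem norm_pow_aut {k : Type} [NormedField k] {K Ω : Type} [Field K] [Field Ω] [Algebra K Ω]
    (τ : Ω →+* k) (g : Ω ≃ₐ[K] Ω) (h : ∀ x, ‖τ (g x)‖ = ‖τ x‖) (j : ℕ) (x : Ω) :
    ‖τ ((g ^ j) x)‖ = ‖τ x‖ := by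
  induction j generalizing x with
  | zero => rfl
  | succ j ih =>
    rw [pow_succ, AlgEquiv.mul_apply, ih, h]

/-- The powers of an automorphism act on roots of unity. -/
theorem root_pow_aut {K Ω : Type} [Field K] [Field Ω] [Algebra K Ω] (g : Ω ≃ₐ[K] Ω) (i p : ℕ)
    (h : ∀ ξ : Ω, ξ ^ p = 1 → g ξ = ξ ^ i) (j : ℕ) (ξ : Ω) (hξ : ξ ^ p = 1) :
    (g ^ j) ξ = ξ ^ i ^ j := by
  induction j with
  | zero => simp
  | succ j ih =>
    rw [pow_succ, AlgEquiv.mul_apply, h ξ hξ, map_pow, ih, ← pow_mul, pow_succ]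

theorem l_typ (h1 : L_SQR) : L_TYP := by
  intro p _ k _ _ _ hne n m K M L M' Ω _ _ _ _ _ _ _ _ _ _ _ _ _ _ _ _ _ _ _ _ _ _ _ _ hS
    δ δ₁ ζ Φ P hΦ hL T hT σ hσ
  have hk : CharZero k := charZero_of_injective_algebraMap (algebraMap ℚ_[p] k).injective
  have : FiniteDimensional K M' := Module.Finite.of_restrictScalars_finite ℚ K M'
  obtain ⟨hd1, hd2, hg1, hg2, -⟩ := h1 p n K M L M' hS
  have := hS.galM
  have := hS.galL
  have := hS.gal
  have : FiniteDimensional M M' := FiniteDimensional.right K M M'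
  obtain ⟨ρ⟩ := hne
  rcases hT σ hσ with hA | hB
  · left
    intro τ' hτ' g hg
    obtain ⟨τ, hτ⟩ := Pool.Agent.Helper99.RL.extend_closure ρ (M := M') (Ω := Ω) τ'
    have hτσ : τ.comp (algebraMap K Ω) = σ := by
      rw [IsScalarTower.algebraMap_eq K M' Ω, ← RingHom.comp_assoc, hτ, hτ']
    have hcom : ∀ y : L, algebraMap L M' ((g.restrictScalars K).restrictNormal L y) =
        g (algebraMap L M' y) := fun y =>
      AlgEquiv.restrictNormal_commutes (g.restrictScalars K) L y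
    have hval : ∀ z : M', τ (algebraMap M' Ω z) = τ' z := fun z =>
      RingHom.congr_fun hτ z
    have h2 : (g.restrictScalars K).restrictNormal L = 1 := by
      refine hA τ hτσ _ fun y => ?_
      rw [IsScalarTower.algebraMap_apply L M' Ω, IsScalarTower.algebraMap_apply L M' Ω, hcom,
        hval, hval, hg]
    have h3 : g.restrictScalars K = 1 := by
      refine hS.gen _ (fun x => g.commutes x) fun y => ?_
      have h4 := hcom y
      rw [h2] at h4
      exact h4.symm
    ext z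
    exact AlgEquiv.congr_fun h3 z
  · right
    intro τ hτ
    obtain ⟨g, r, i, hn, hm, hr, hi⟩ := hB τ hτ
    set s : Ω ≃ₐ[K] Ω := g ^ p ^ n with hs
    set g' : M' ≃ₐ[K] M' := g.restrictNormal M' with hg'
    have hcom : ∀ x : M', algebraMap M' Ω (g' x) = g (algebraMap M' Ω x) := fun x =>
      AlgEquiv.restrictNormal_commutes g M' x
    have hinj : Function.Injective (algebraMap M' Ω) := (algebraMap M' Ω).injective
    have hpow : ∀ (j : ℕ) (x : M), (δ₁ ^ j) (algebraMap M M' x) = algebraMap M M' ((δ ^ j) x) := by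
      intro j
      induction j with
      | zero => intro x; rfl
      | succ j ih =>
        intro x
        rw [pow_succ, AlgEquiv.mul_apply, hL.ext, ih, pow_succ, AlgEquiv.mul_apply]
    have hgM : ∀ x : M, g' (algebraMap M M' x) = algebraMap M M' ((δ ^ r) x) := by
      intro x
      apply hinj
      rw [hcom, ← IsScalarTower.algebraMap_apply M M' Ω, hm,
        IsScalarTower.algebraMap_apply M M' Ω]
    -- the element of the Galois group of the upper extension
    obtain ⟨h, hh⟩ : ∃ h : M' ≃ₐ[K] M', h = (δ₁ ^ r)⁻¹ * g' := ⟨_, rfl⟩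
    have hhM : ∀ x : M, h (algebraMap M M' x) = algebraMap M M' x := by
      intro x
      rw [hh, AlgEquiv.mul_apply, hgM, ← hpow, ← AlgEquiv.mul_apply, inv_mul_cancel]
      rfl
    let hM : M' ≃ₐ[M] M' := AlgEquiv.ofRingEquiv (f := (h : M' ≃+* M')) hhM
    have hMh : ∀ y, hM y = h y := fun y => rfl
    have hcard : Nat.card (M' ≃ₐ[M] M') = p ^ n := by
      rw [IsGalois.card_aut_eq_finrank M M', hd1]
    have hM1 : hM ^ p ^ n = 1 := by
      rw [← hcard]
      exact pow_card_eq_one'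
    have hh1 : h ^ p ^ n = 1 := by
      have hj : ∀ (j : ℕ) (y : M'), (hM ^ j) y = (h ^ j) y := by
        intro j
        induction j with
        | zero => intro y; rfl
        | succ j ih => intro y; rw [pow_succ, pow_succ, AlgEquiv.mul_apply, AlgEquiv.mul_apply, ih,
            hMh]
      ext y
      rw [← hj, hM1]
      rfl
    have hc1 : Commute h δ₁ := by
      change h * δ₁ = δ₁ * h
      ext y
      rw [AlgEquiv.mul_apply, AlgEquiv.mul_apply, ← hMh, ← hMh]
      exact hL.comm hM y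
    have hgeq : g' ^ p ^ n = δ₁ ^ (r * p ^ n) := by
      have h5 : g' = δ₁ ^ r * h := by
        rw [hh, mul_inv_cancel_left]
      have h6 : Commute (δ₁ ^ r) h := (hc1.symm).pow_left r
      rw [h5, h6.mul_pow, hh1, mul_one, ← pow_mul]
    have hsM : ∀ (j : ℕ) (x : M'), (g ^ j) (algebraMap M' Ω x) = algebraMap M' Ω ((g' ^ j) x) := by
      intro j
      induction j with
      | zero => intro x; rfl
      | succ j ih =>
        intro x
        rw [pow_succ, AlgEquiv.mul_apply, ← hcom, ih, pow_succ, AlgEquiv.mul_apply]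
    refine ⟨((s : Ω ≃ₐ[K] Ω) : Ω →+* Ω), r * p ^ n, i ^ p ^ n, ?_, ?_, ?_, ?_⟩
    · intro x
      exact norm_pow_aut τ g hn (p ^ n) x
    · intro x
      change (g ^ p ^ n) (algebraMap M' Ω x) = _
      rw [hsM, hgeq]
    · intro ξ hξ
      exact root_pow_aut g i p hr (p ^ n) ξ hξ
    · have h7 : (X ^ (r * p ^ n) - C ((i ^ p ^ n : ℕ) : ZMod p) : (ZMod p)[X]) =
          (X ^ r - C (i : ZMod p)) ^ p ^ n := by
        rw [sub_pow_char_pow, ← pow_mul, ← C_pow, Nat.cast_pow]
      rw [h7]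
      exact (coprime_of_norm hΦ r i hi).pow_right

end Pool.Agent.Helper4.RL
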