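import Pool.Agent.Helper18.RL.Goals
import Pool.Agent.Helper35.RG3.XPM
import Mathlib

/-!
# Project RL (MP_0c2bb8_co): packet CRT, critical graphs are not in `CS`
-/

set_option autoImplicit false

namespace Pool.Agent.Helper4.RL

open Finset Pool.Agent.Helper37.RG3 Pool.Agent.Helper18.RL

/-- packet RL-CRT -/
theorem gcrt (hV : G_VIO) : G_CRT := by
  intro V _ _ U w r hc hCS
  obtain ⟨m, hm⟩ := Pool.Agent.Helper35.RG3.xpm V U w r hc.rg hc.pos
  obtain ⟨X, hXU, hXo, hXc⟩ := hc.bd m hm
  obtain ⟨s, rfl⟩ : ∃ s, r = s + 1 := ⟨r - 1, by have := hc.pos; omega⟩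
  have h := hc.rg
  have hRR : RR U (Pool.Agent.Helper37.RG3.rem w m) s :=
    { symm := rem_symm h.symm hm.invol
      irr := by
        intro u
        have h1 := h.irr u
        rw [rem_add hm u u] at h1
        omega
      supp := by
        intro u v huv
        apply h.supp u v
        rw [rem_add hm u v]
        omega
      deg := by
        intro u hu
        have h1 := h.deg u hu
        rw [Finset.sum_congr rfl (fun v _ => rem_add hm u v), Finset.sum_add_distrib] at h1
        have h2 : ∑ v, (if u ≠ v ∧ m u = v then 1 else 0) = 1 := by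
          rw [Finset.sum_eq_single_of_mem (m u) (mem_univ _)]
          · rw [if_pos]
            exact ⟨(hm.ne h hu).symm, rfl⟩
          · intro v _ hv
            rw [if_neg]
            rintro ⟨_, rfl⟩
            exact hv rfl
        omega }
  have key : ∀ Y, Y ⊆ U → Odd Y.card → ct w Y + 1 < (s + 1) + cr m Y →
      ∃ S, S ⊆ Y ∧ LO (Adj w) S := by
    intro Y hYU hYo hYc
    have h1 := ct_rem hm Y
    obtain ⟨S, hS, hL⟩ := hV V U Y (Pool.Agent.Helper37.RG3.rem w m) s hRR hYU hYo (by omega) (by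
      intro T hT h3
      have hTU := hT.trans hYU
      have hTo : Odd T.card := by rw [h3]; decide
      have h4 := hc.nt T hTU hTo (by omega) (by have := hc.ten; omega)
      have h5 := h.ct_odd_parity hTU hTo
      have h6 := cr_le m T
      have h7 := ct_rem hm T
      omega)
    refine ⟨S, hS, hL.mono fun x _ y _ hxy => ?_⟩
    unfold Adj at hxy ⊢
    have := rem_add hm x y
    omega
  obtain ⟨S, hS, hSL⟩ := key X hXU hXo hXc
  have hev := h.even_card hc.pos
  have hcard := Finset.card_sdiff_add_card_eq_card hXU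
  obtain ⟨T, hT, hTL⟩ := key (U \ X) sdiff_subset (by
    obtain ⟨k, hk⟩ := hev
    obtain ⟨l, hl⟩ := hXo
    exact ⟨k - l - 1, by omega⟩) (by
    rw [h.ct_compl hXU, cr_compl h hm hXU]
    exact hXc)
  have hd : Disjoint S T :=
    (Finset.disjoint_sdiff (s := X) (t := U)).mono hS hT
  obtain ⟨L, Z, hZ, hLZ, hSLZ, hLT, hcl⟩ :=
    hCS S T (hS.trans hXU) (hT.trans sdiff_subset) hd hSL hTL
  have hnb : nb (Adj w) (L ∩ U) ⊆ Z := by
    intro v hv
    rw [mem_nb] at hv
    obtain ⟨h1, x, hx, hxv⟩ := hv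
    rw [mem_inter] at hx h1
    have h2 := hcl x hx.1 v hxv
    have h3 : v ∈ U := h.supp' hxv
    rw [mem_union] at h2
    tauto
  have h5 := hSL.2.1
  have h6 := hTL.2.1
  have k1 : S \ Z ⊆ L ∩ U := by
    intro x hx
    rw [mem_sdiff] at hx
    have h2 := hSLZ hx.1
    have h3 := hXU (hS hx.1)
    rw [mem_union] at h2
    rw [mem_inter]
    tauto
  have k2 : T \ Z ⊆ U \ (L ∩ U ∪ nb (Adj w) (L ∩ U)) := by
    intro x hx
    rw [mem_sdiff] at hx
    have h2 := hT hx.1
    rw [mem_sdiff] at h2 ⊢
    refine ⟨h2.1, ?_⟩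
    rw [mem_union, mem_inter]
    rintro (h3 | h3)
    · exact disjoint_left.1 hLT h3.1 hx.1
    · exact hx.2 (hnb h3)
  have c1 := Finset.card_le_card k1
  have c2 := Finset.card_le_card k2
  have c3 := Finset.le_card_sdiff Z S
  have c4 := Finset.le_card_sdiff Z T
  have c5 := hc.i4 (L ∩ U) inter_subset_right (by omega) (by omega)
  have c6 := Finset.card_le_card hnb
  omega

end Pool.Agent.Helper4.RL
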